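import Pool.Agent.K6.H63.RT.Order

/-!
# Weak type maximal inequalities of all orders

Let `μ` be a symmetric probability measure on the integers which is non-increasing on the natural
numbers. Then `μ` satisfies the weak type maximal inequality of order `m` for every `m`, with a
constant that depends only on `m`. This answers Q2 positively.
-/

set_option autoImplicit false

namespace Pool.Agent.Results.MP_e7950b_an.WeakTypeAllOrders

open scoped ENNReal
open Pool.Agent.K6.H63.RT

/-- The convolution `(ν * f)(k) = ∑_j ν(j) f(k - j)` of a real function `ν` on the integers with a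
function `f` on the integers (real or complex valued). -/
noncomputable def conv {E : Type*} [NormedAddCommGroup E] [NormedSpace ℝ E]
    (ν : ℤ → ℝ) (f : ℤ → E) (k : ℤ) : E :=
  ∑' j : ℤ, ν j • f (k - j)

/-- The unit mass `δ₀` at the origin. -/
noncomputable def delta : ℤ → ℝ := fun k => if k = 0 then 1 else 0

/-- The convolution powers `ν^{*n}`; the zeroth power is `δ₀`. -/
noncomputable def convPow (ν : ℤ → ℝ) : ℕ → ℤ → ℝ
  | 0 => delta
  | n + 1 => conv ν (convPow ν n)

/-- The maximal function `sup_{n ≥ 1} n ^ m |μ^{*n} * (δ₀ - μ)^{*m} * f (k)|` in `[0, ∞]`. -/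
noncomputable def maxFun (μ : ℤ → ℝ) (m : ℕ) (f : ℤ → ℂ) (k : ℤ) : ℝ≥0∞ :=
  ⨆ n : ℕ, ⨆ _ : 1 ≤ n, ENNReal.ofReal
    ((n : ℝ) ^ m * ‖conv (conv (convPow μ n) (convPow (fun j => delta j - μ j) m)) f k‖)

/-- The weak type maximal inequality of order `m` with constant `C`: for all `f ∈ ℓ¹(ℤ)` and all
`t > 0`, the set where the maximal function is at least `t` is finite, and `t` times the number of
its elements is at most `C ‖f‖₁`. -/
def WeakType (μ : ℤ → ℝ) (m : ℕ) (C : ℝ) : Prop :=
  ∀ f : ℤ → ℂ, Summable (fun k => ‖f k‖) → ∀ t : ℝ, 0 < t →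
    {k : ℤ | ENNReal.ofReal t ≤ maxFun μ m f k}.Finite ∧
      t * ({k : ℤ | ENNReal.ofReal t ≤ maxFun μ m f k}.ncard : ℝ) ≤ C * ∑' k : ℤ, ‖f k‖

lemma convPow_eq (ν : ℤ → ℝ) (n : ℕ) : convPow ν n = Pool.Agent.R248.Ritt.cvPow ν n := by
  induction n with
  | zero => rfl
  | succ n ih =>
    show conv ν (convPow ν n) = Pool.Agent.R248.Ritt.cv ν (Pool.Agent.R248.Ritt.cvPow ν n)
    rw [ih]
    rfl

lemma ker_eq (μ : ℤ → ℝ) (m n : ℕ) :
    conv (convPow μ n) (convPow (fun j => delta j - μ j) m) = kerLim μ m n := by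
  rw [convPow_eq, convPow_eq]
  rfl

/-- Every symmetric probability measure on the integers which is non-increasing on the natural
numbers satisfies the weak type maximal inequality of every order `m`, with the constant
`8 (1266 m) ^ m` (for `m = 0` this is `8`). -/
theorem result (μ : ℤ → ℝ) (hnonneg : ∀ k, 0 ≤ μ k) (hsum : HasSum μ 1)
    (hsymm : ∀ k, μ (-k) = μ k) (hanti : ∀ n : ℕ, μ ((n : ℤ) + 1) ≤ μ (n : ℤ)) (m : ℕ) :
    WeakType μ m (8 * (1266 * (m : ℝ)) ^ m) := by
  intro f hf t ht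
  set C : ℝ := (1266 * (m : ℝ)) ^ m with hC
  have hC0 : 0 < C := by
    rcases Nat.eq_zero_or_pos m with hm | hm
    · rw [hC, hm]; norm_num
    · have : (0:ℝ) < m := by exact_mod_cast hm
      positivity
  set S : Set ℤ := {k : ℤ | ENNReal.ofReal t ≤ maxFun μ m f k} with hS
  have key : ∀ k ∈ S, ∃ r : ℕ, t / (2 * C) < av f k r := by
    intro k hk
    by_contra hcon
    push Not at hcon
    have h1 : maxFun μ m f k ≤ ENNReal.ofReal (t / 2) := by
      refine iSup_le fun n => iSup_le fun _ => ENNReal.ofReal_le_ofReal ?_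
      have h2 := pointwise hnonneg hsum hsymm hanti m n hf k _ hcon
      rw [ker_eq]
      refine h2.trans (le_of_eq ?_)
      rw [← hC]
      field_simp
    have h3 : ENNReal.ofReal t ≤ ENNReal.ofReal (t / 2) := le_trans hk h1
    rw [ENNReal.ofReal_le_ofReal_iff (by linarith)] at h3
    linarith
  have hfin : ∀ F : Finset ℤ, (F : Set ℤ) ⊆ S → t * (F.card : ℝ) ≤ 8 * C * ∑' k : ℤ, ‖f k‖ := by
    intro F hF
    have h2 := card_le_of_av hf (t := t / (2 * C)) (by positivity) F
      (fun k hk => key k (hF (by exact_mod_cast hk)))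
    have h3 : t * (F.card : ℝ) = 2 * C * (t / (2 * C) * (F.card : ℝ)) := by
      field_simp
    rw [h3]
    calc 2 * C * (t / (2 * C) * (F.card : ℝ)) ≤ 2 * C * (4 * ∑' k : ℤ, ‖f k‖) :=
          mul_le_mul_of_nonneg_left h2 (by positivity)
      _ = _ := by ring
  have hSfin : S.Finite := by
    by_contra hinf
    obtain ⟨N, hN⟩ := exists_nat_gt (8 * C * (∑' k : ℤ, ‖f k‖) / t)
    obtain ⟨F, hF, hFc⟩ := Set.Infinite.exists_subset_card_eq hinf N
    have h4 := hfin F hF
    rw [hFc] at h4
    rw [div_lt_iff₀ ht] at hN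
    linarith
  refine ⟨hSfin, ?_⟩
  rw [Set.ncard_eq_toFinset_card S hSfin]
  exact hfin _ (by simp)

end Pool.Agent.Results.MP_e7950b_an.WeakTypeAllOrders
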